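import Pool.Agent.U446.Vis.Count
import Pool.Agent.U446.Vis.Upper

/-!
# The number of visibility graphs of simple polygons is `2 ^ Θ(n log n)`
-/

set_option autoImplicit false

namespace Pool.Agent.Results.MP_af711c_co.GrowthRate

open Vis124 Pool.Agent.U446.Vis Filter Asymptotics

theorem lower (n : ℕ) (hn : 8 ≤ n) : ((n - 8) / 3).factorial ≤ NGP n := by
  have h := factorial_le_NGP (k := (n - 8) / 3) (M := n - 3 - 2 * ((n - 8) / 3)) (by omega)
  have e : 2 * ((n - 8) / 3 + 1) + (n - 3 - 2 * ((n - 8) / 3)) + 1 = n := by omega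
  rwa [e] at h

theorem log_lower (n : ℕ) (hn : 100 ≤ n) :
    (1 / 16 : ℝ) * (n * Real.log n) ≤ Real.log (NGP n) := by
  have h1 := lower n (by omega)
  obtain ⟨k, hk⟩ : ∃ k, k = (n - 8) / 3 := ⟨_, rfl⟩
  rw [← hk] at h1
  have h2 := Nat.factorial_mul_pow_sub_le_factorial (Nat.div_le_self k 2)
  have h3 : (k / 2) ^ (k - k / 2) ≤ NGP n := by
    refine le_trans ?_ (h2.trans h1)
    exact Nat.le_mul_of_pos_left _ (Nat.factorial_pos _)
  have hnr : (100 : ℝ) ≤ n := by exact_mod_cast hn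
  have hk1 : (n : ℝ) - 10 ≤ 3 * k := by
    have : n ≤ 3 * k + 10 := by omega
    have : (n : ℝ) ≤ 3 * k + 10 := by exact_mod_cast this
    linarith
  have hk2 : (k : ℝ) - 1 ≤ 2 * ((k / 2 : ℕ) : ℝ) := by
    have : k ≤ 2 * (k / 2) + 1 := by omega
    have : (k : ℝ) ≤ 2 * ((k / 2 : ℕ) : ℝ) + 1 := by exact_mod_cast this
    linarith
  have hk3 : (k : ℝ) ≤ 2 * ((k - k / 2 : ℕ) : ℝ) := by
    have : k ≤ 2 * (k - k / 2) := by omega
    exact_mod_cast this
  have hb : (n : ℝ) / 8 ≤ ((k / 2 : ℕ) : ℝ) := by linarith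
  have hpos : (0 : ℝ) < ((k / 2 : ℕ) : ℝ) := by linarith
  have h4 : (((k / 2 : ℕ) : ℝ)) ^ (k - k / 2) ≤ (NGP n : ℝ) := by exact_mod_cast h3
  have h5 := Real.log_le_log (pow_pos hpos _) h4
  rw [Real.log_pow] at h5
  refine le_trans ?_ h5
  have hlog : (1 / 2 : ℝ) * Real.log n ≤ Real.log ((k / 2 : ℕ) : ℝ) := by
    have h6 : Real.log ((n : ℝ) / 8) ≤ Real.log ((k / 2 : ℕ) : ℝ) :=
      Real.log_le_log (by linarith) hb
    refine le_trans ?_ h6
    rw [← Real.log_rpow (by linarith), ← Real.sqrt_eq_rpow]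
    apply Real.log_le_log (Real.sqrt_pos.2 (by linarith))
    rw [Real.sqrt_le_left (by linarith)]
    nlinarith
  have hlogn : 0 ≤ Real.log n := Real.log_nonneg (by linarith)
  have h7 : (n : ℝ) / 8 ≤ ((k - k / 2 : ℕ) : ℝ) := by linarith
  calc (1 / 16 : ℝ) * (n * Real.log n) = (n : ℝ) / 8 * ((1 / 2 : ℝ) * Real.log n) := by ring
    _ ≤ ((k - k / 2 : ℕ) : ℝ) * Real.log ((k / 2 : ℕ) : ℝ) :=
      mul_le_mul h7 hlog (by positivity) (by positivity)

theorem log_upper (n : ℕ) (hn : 2 ≤ n) : Real.log (N n) ≤ 17 * (n * Real.log n) := by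
  have hnr : (2 : ℝ) ≤ n := by exact_mod_cast hn
  have hlog2 : Real.log 2 ≤ Real.log n := Real.log_le_log (by norm_num) hnr
  have hlogn : 0 ≤ Real.log n := le_trans (Real.log_nonneg (by norm_num)) hlog2
  rcases Nat.eq_zero_or_pos (N n) with h0 | h0
  · rw [h0]
    simp only [Nat.cast_zero, Real.log_zero]
    positivity
  have h1 : (N n : ℝ) ≤ 2 * (16 * (n : ℝ) ^ 3 + 1) ^ (2 * n) := by exact_mod_cast N_le n
  have h2 : 16 * (n : ℝ) ^ 3 + 1 ≤ (n : ℝ) ^ 8 := by
    have h3 : (1 : ℝ) ≤ (n : ℝ) ^ 3 := one_le_pow₀ (by linarith)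
    have h4 : (2 : ℝ) ^ 5 ≤ (n : ℝ) ^ 5 := pow_le_pow_left₀ (by norm_num) hnr 5
    have h5 : (n : ℝ) ^ 8 = (n : ℝ) ^ 5 * (n : ℝ) ^ 3 := by ring
    rw [h5]
    nlinarith
  have h3 : (N n : ℝ) ≤ 2 * ((n : ℝ) ^ 8) ^ (2 * n) := by
    refine h1.trans ?_
    have := pow_le_pow_left₀ (by positivity) h2 (2 * n)
    linarith
  have h4 := Real.log_le_log (by exact_mod_cast h0) h3
  rw [Real.log_mul (by norm_num) (by positivity), Real.log_pow, Real.log_pow] at h4
  push_cast at h4
  have h5 : Real.log 2 ≤ n * Real.log n := by nlinarith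
  linarith

/-- **Counting visibility graphs of simple polygons.** The binary logarithm of the number `N n` of
isomorphism classes of visibility graphs of simple polygons with `n` vertices is of the order
`n log n`; this also holds for the polygons without three collinear vertices. -/
theorem result :
    (fun n : ℕ => Real.logb 2 (N n)) =Θ[atTop] (fun n : ℕ => (n : ℝ) * Real.logb 2 n) ∧
    (fun n : ℕ => Real.logb 2 (NGP n)) =Θ[atTop] (fun n : ℕ => (n : ℝ) * Real.logb 2 n) ∧
    (∀ n : ℕ, 8 ≤ n → ((n - 8) / 3).factorial ≤ NGP n) ∧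
    (∀ n : ℕ, NGP n ≤ N n) ∧
    (∀ n : ℕ, N n ≤ 2 * (16 * n ^ 3 + 1) ^ (2 * n)) ∧
    (∀ n : ℕ, 100 ≤ n → (1 / 16 : ℝ) * (n * Real.logb 2 n) ≤ Real.logb 2 (NGP n)) ∧
    (∀ n : ℕ, 2 ≤ n → Real.logb 2 (N n) ≤ 17 * (n * Real.logb 2 n)) := by
  have hl2 : 0 < Real.log 2 := Real.log_pos (by norm_num)
  have hlow : ∀ n : ℕ, 100 ≤ n → (1 / 16 : ℝ) * (n * Real.logb 2 n) ≤ Real.logb 2 (NGP n) := by
    intro n hn
    have := div_le_div_of_nonneg_right (log_lower n hn) hl2.le
    unfold Real.logb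
    refine le_trans (le_of_eq ?_) this
    ring
  have hup : ∀ n : ℕ, 2 ≤ n → Real.logb 2 (N n) ≤ 17 * (n * Real.logb 2 n) := by
    intro n hn
    have := div_le_div_of_nonneg_right (log_upper n hn) hl2.le
    unfold Real.logb
    refine le_trans this (le_of_eq ?_)
    ring
  have hpos : ∀ n : ℕ, 100 ≤ n → 0 ≤ (n : ℝ) * Real.logb 2 n := by
    intro n hn
    have : (1 : ℝ) ≤ n := by
      have : 1 ≤ n := by omega
      exact_mod_cast this
    exact mul_nonneg (by positivity) (Real.logb_nonneg (by norm_num) this)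
  have hmid : ∀ n : ℕ, 100 ≤ n → Real.logb 2 (NGP n) ≤ Real.logb 2 (N n) := by
    intro n hn
    have h1 := lower n (by omega)
    have h2 : 0 < NGP n := lt_of_lt_of_le (Nat.factorial_pos _) h1
    exact Real.logb_le_logb_of_le (by norm_num) (by exact_mod_cast h2)
      (by exact_mod_cast NGP_le_N n)
  refine ⟨?_, ?_, fun n hn => lower n hn, NGP_le_N, N_le, hlow, hup⟩
  · constructor
    · refine IsBigO.of_bound 17 ?_
      filter_upwards [eventually_ge_atTop 100] with n hn
      have h1 := hpos n hn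
      have h2 := (hlow n hn).trans (hmid n hn)
      have h3 : 0 ≤ Real.logb 2 (N n) := le_trans (by positivity) h2
      rw [Real.norm_of_nonneg h1, Real.norm_of_nonneg h3]
      exact hup n (by omega)
    · refine IsBigO.of_bound 16 ?_
      filter_upwards [eventually_ge_atTop 100] with n hn
      have h1 := hpos n hn
      have h2 := (hlow n hn).trans (hmid n hn)
      have h3 : 0 ≤ Real.logb 2 (N n) := le_trans (by positivity) h2
      rw [Real.norm_of_nonneg h1, Real.norm_of_nonneg h3]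
      linarith
  · constructor
    · refine IsBigO.of_bound 17 ?_
      filter_upwards [eventually_ge_atTop 100] with n hn
      have h1 := hpos n hn
      have h2 := hlow n hn
      have h3 : 0 ≤ Real.logb 2 (NGP n) := le_trans (by positivity) h2
      rw [Real.norm_of_nonneg h1, Real.norm_of_nonneg h3]
      exact (hmid n hn).trans (hup n (by omega))
    · refine IsBigO.of_bound 16 ?_
      filter_upwards [eventually_ge_atTop 100] with n hn
      have h1 := hpos n hn
      have h2 := hlow n hn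
      have h3 : 0 ≤ Real.logb 2 (NGP n) := le_trans (by positivity) h2
      rw [Real.norm_of_nonneg h1, Real.norm_of_nonneg h3]
      linarith

end Pool.Agent.Results.MP_af711c_co.GrowthRate
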